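import Pool.Agent.Helper19.RD.Stmts8
import Pool.Agent.Helper9.RD6.BIL

/-! Row BL1 of project RD, eighth form (MP_b7477f_nt): bilinear sums of the Jacobi symbol modulo
one prime. -/

set_option autoImplicit false

namespace Pool.Agent.Helper78.RD8

open Finset Pool.Agent.Helper9.RD6

theorem bl1 (p : ℕ) (J : Finset ℕ) (α β F G : ℕ → ℤ) (hp : p.Prime) (h2 : p ≠ 2)
    (hF : ∀ n, |F n| ≤ 1) (hG : ∀ n, |G n| ≤ 1) :
    (∑ i ∈ J, ∑ j ∈ J, jacobiSym (α i + β j) p * F i * G j) ^ 2 ≤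
      (p : ℤ) * (((J ×ˢ J).filter (fun x => (p : ℤ) ∣ α x.1 - α x.2)).card : ℤ) *
        (((J ×ˢ J).filter (fun x => (p : ℤ) ∣ β x.1 - β x.2)).card : ℤ) := by
  haveI : Fact p.Prime := ⟨hp⟩
  haveI : NeZero p := ⟨hp.ne_zero⟩
  have hcard : ∀ γ : ℕ → ℤ, (J ×ˢ J).filter (fun x => (γ x.1 : ZMod p) = (γ x.2 : ZMod p)) =
      (J ×ˢ J).filter (fun x => (p : ℤ) ∣ γ x.1 - γ x.2) := by
    intro γ
    refine filter_congr fun x _ => ?_
    rw [← ZMod.intCast_zmod_eq_zero_iff_dvd]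
    push_cast
    exact sub_eq_zero.symm
  obtain ⟨V, hV⟩ : ∃ V : ZMod p → ℤ, V = fun x =>
    ∑ j ∈ J, quadraticChar (ZMod p) (x + (β j : ZMod p)) * G j := ⟨_, rfl⟩
  have hT : ∑ i ∈ J, ∑ j ∈ J, jacobiSym (α i + β j) p * F i * G j =
      ∑ i ∈ J, F i * V (α i : ZMod p) := by
    refine sum_congr rfl fun i _ => ?_
    rw [hV]
    simp only [mul_sum]
    refine sum_congr rfl fun j _ => ?_
    rw [← jacobiSym.legendreSym.to_jacobiSym, legendreSym]
    push_cast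
    ring
  have hVV : ∑ x, V x ^ 2 ≤ (p : ℤ) *
      (((J ×ˢ J).filter (fun x => (p : ℤ) ∣ β x.1 - β x.2)).card : ℤ) := by
    have e1 : ∑ x, V x ^ 2 = ∑ j ∈ J, ∑ j' ∈ J, G j * G j' *
        ((p : ℤ) * (if (β j : ZMod p) = β j' then 1 else 0) - 1) := by
      rw [hV]
      simp only [sq, sum_mul_sum]
      rw [sum_comm]
      refine sum_congr rfl fun j _ => ?_
      rw [sum_comm]
      refine sum_congr rfl fun j' _ => ?_
      rw [← corr p h2, mul_sum]
      refine sum_congr rfl fun x _ => ?_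
      ring
    have e2 : ∑ j ∈ J, ∑ j' ∈ J, G j * G j' *
        ((p : ℤ) * (if (β j : ZMod p) = β j' then 1 else 0) - 1) =
        (p : ℤ) * (∑ j ∈ J, ∑ j' ∈ J, if (β j : ZMod p) = β j' then G j * G j' else 0) -
          (∑ j ∈ J, G j) ^ 2 := by
      rw [sq, sum_mul_sum]
      simp only [mul_sum]
      rw [← sum_sub_distrib]
      refine sum_congr rfl fun j _ => ?_
      rw [← sum_sub_distrib]
      refine sum_congr rfl fun j' _ => ?_
      by_cases ha : (β j : ZMod p) = β j' <;> simp only [ha, if_true, if_false] <;> ring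
    rw [e1, e2, ← sq_fib J (fun j => (β j : ZMod p)) G]
    have e3 := fib_le J (fun j => (β j : ZMod p)) G hG
    rw [hcard β] at e3
    have e6 := mul_le_mul_of_nonneg_left e3 (Nat.cast_nonneg (α := ℤ) p)
    have e7 := sq_nonneg (∑ j ∈ J, G j)
    linarith
  have hFF := fib_le J (fun i => (α i : ZMod p)) F hF
  rw [hcard α] at hFF
  rw [hT]
  refine (cs J (fun i => (α i : ZMod p)) F V).trans ?_
  calc (∑ x, (∑ i ∈ J, if (α i : ZMod p) = x then F i else 0) ^ 2) * ∑ x, V x ^ 2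
      ≤ (((J ×ˢ J).filter (fun x => (p : ℤ) ∣ α x.1 - α x.2)).card : ℤ) *
        ((p : ℤ) * (((J ×ˢ J).filter (fun x => (p : ℤ) ∣ β x.1 - β x.2)).card : ℤ)) :=
        mul_le_mul hFF hVV (sum_nonneg fun x _ => sq_nonneg _) (Nat.cast_nonneg _)
    _ = (p : ℤ) * (((J ×ˢ J).filter (fun x => (p : ℤ) ∣ α x.1 - α x.2)).card : ℤ) *
        (((J ×ˢ J).filter (fun x => (p : ℤ) ∣ β x.1 - β x.2)).card : ℤ) := by ring

end Pool.Agent.Helper78.RD8

namespace Pool.Agent.Helper19.RD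

theorem st_BL1 : ST_BL1 := by
  intro p J α β F G hp h2 hF hG
  exact Pool.Agent.Helper78.RD8.bl1 p J α β F G hp h2 hF hG

end Pool.Agent.Helper19.RD
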